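import Pool.Agent.KS6_52.Bas.Fin

/-!
# Commensurated subgroups of the Basilica group

Every commensurated subgroup of the Basilica group is commensurate with a normal subgroup.
-/

namespace Pool.Agent.Results.MP_6eb92e_al.CommensuratedBasilica

open Pool.Agent.KS6_52.Bas

/-- `H` and `K` are commensurate: `H ∩ K` has finite index in both -/
def Commensurate {G : Type*} [Group G] (H K : Subgroup G) : Prop :=
  ((H ⊓ K).subgroupOf H).FiniteIndex ∧ ((H ⊓ K).subgroupOf K).FiniteIndex

/-- `H` is commensurated: it is commensurate with `g H g⁻¹` for every `g` -/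
def Commensurated {G : Type*} [Group G] (H : Subgroup G) : Prop :=
  ∀ g : G, Commensurate H (H.map (MulAut.conj g).toMonoidHom)

lemma commensurate_iff {G : Type*} [Group G] (H K : Subgroup G) : Commensurate H K ↔ Cm H K := by
  unfold Commensurate Cm
  rw [Subgroup.inf_subgroupOf_left, Subgroup.inf_subgroupOf_right]
  constructor
  · rintro ⟨h1, h2⟩
    exact ⟨h2.index_ne_zero, h1.index_ne_zero⟩
  · rintro ⟨h1, h2⟩
    exact ⟨⟨h2⟩, ⟨h1⟩⟩

/-- every commensurated subgroup of the Basilica group is commensurate with a normal subgroup -/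
theorem result : ∀ H : Subgroup Basilica, Commensurated H →
    ∃ N : Subgroup Basilica, N.Normal ∧ Commensurate H N := by
  intro H hH
  have h1 : Cd H := fun g => ((commensurate_iff _ _).1 (hH g)).2
  obtain ⟨N, hN, hc⟩ := basilica_main h1
  exact ⟨N, hN, (commensurate_iff _ _).2 hc⟩

end Pool.Agent.Results.MP_6eb92e_al.CommensuratedBasilica
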